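import Pool.Agent.R197.K26.P1
import Pool.Agent.R197.K26.P2
import Pool.Agent.R197.K26.P3
import Pool.Agent.R197.K26.P4
import Pool.Agent.R197.K26.P5
import Pool.Agent.R197.K26.P6
import Pool.Agent.R197.K26.Main

/-!
# MP_026d7f_an: hyperplanes of maximal relative projection constant

`N(n)` is finite with an explicit bound for every `n ≥ 3`, it is at least `2^(n-1)`, and
`N(3) = 4`, `N(4) = 8`.
-/

set_option autoImplicit false

open Module

namespace Pool.Agent.Results.MP_026d7f_an.MaxHyperplanes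

/-- The relative projection constant `λ(Y, X)`: infimum of the norms of the linear projections of
`X` onto `Y`. -/
noncomputable def relativeProjectionConstant (X : Type*) [NormedAddCommGroup X] [NormedSpace ℝ X]
    (Y : Submodule ℝ X) : ℝ :=
  sInf {r : ℝ | ∃ P : X →L[ℝ] X, (∀ x, P x ∈ Y) ∧ (∀ y ∈ Y, P y = y) ∧ r = ‖P‖}

/-- The hyperplanes `Y` of `X` with `λ(Y, X) = 2 - 2 / n`, `n = dim X`. -/
def maximalHyperplanes (X : Type*) [NormedAddCommGroup X] [NormedSpace ℝ X] :
    Set (Submodule ℝ X) :=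
  {Y | finrank ℝ Y + 1 = finrank ℝ X ∧
    relativeProjectionConstant X Y = 2 - 2 / (finrank ℝ X : ℝ)}

/-- `N(n)`: the supremum over all `n`-dimensional real normed spaces `X` of the number `N(X)` of
hyperplanes of `X` of maximal relative projection constant. -/
noncomputable def N (n : ℕ) : ℕ∞ :=
  sSup {m : ℕ∞ | ∃ (X : Type) (_ : NormedAddCommGroup X) (_ : NormedSpace ℝ X),
    finrank ℝ X = n ∧ m = (maximalHyperplanes X).encard}

theorem result :
    (∀ n : ℕ, 3 ≤ n →
      ((2 ^ (n - 1) : ℕ) : ℕ∞) ≤ N n ∧ N n ≤ (((4 * n) ^ (n ^ 2) : ℕ) : ℕ∞)) ∧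
    N 3 = 4 ∧ N 4 = 8 :=
  R197K26.main R197K26.P1 R197K26.P2 R197K26.P3a R197K26.P3b R197K26.P4 R197K26.P5 R197K26.P6

end Pool.Agent.Results.MP_026d7f_an.MaxHyperplanes
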